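import Pool.Agent.U115.TP.Loc

/-!
# Project GZ, package EX1 (helper962): lemmas for `y² = x³ - 4 x² + 2 x`
-/

set_option autoImplicit false

namespace Pool.Agent.U962.GZ

open Pool.Agent.U115.TP

/-- integers which are `1` modulo `8` are squares in `ℚ_2` -/
theorem sq_two {a : ℤ} (ha : a % 8 = 1) [Fact (Nat.Prime 2)] : IsSquare ((a : ℤ) : ℚ_[2]) := by
  obtain ⟨k, hk⟩ : ∃ k : ℤ, a = 1 + 8 * k := ⟨a / 8, by omega⟩
  set F : Polynomial ℤ_[2] := Polynomial.X ^ 2 - Polynomial.C (a : ℤ_[2]) with hF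
  have h1 : Polynomial.aeval (1 : ℤ_[2]) F = -(8 * k : ℤ_[2]) := by
    simp only [hF, map_sub, map_pow, Polynomial.aeval_X, Polynomial.aeval_C,
      Algebra.algebraMap_self, RingHom.id_apply, hk]
    push_cast
    ring
  have h2 : Polynomial.aeval (1 : ℤ_[2]) (Polynomial.derivative F) = 2 := by
    rw [hF]
    simp
    norm_num
  have h3 : ‖Polynomial.aeval (1 : ℤ_[2]) F‖ <
      ‖Polynomial.aeval (1 : ℤ_[2]) (Polynomial.derivative F)‖ ^ 2 := by
    rw [h1, h2, norm_neg, norm_mul]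
    have e1 : ‖(2 : ℤ_[2])‖ = 1 / 2 := by
      have := PadicInt.norm_p (p := 2)
      push_cast at this
      rw [this]; norm_num
    have e2 : ‖(8 : ℤ_[2])‖ = 1 / 8 := by
      rw [show (8 : ℤ_[2]) = 2 ^ 3 by norm_num, norm_pow, e1]; norm_num
    rw [e1, e2]
    have e3 := PadicInt.norm_le_one (k : ℤ_[2])
    nlinarith
  obtain ⟨z, hz, -⟩ := hensels_lemma h3
  rw [hF, map_sub, map_pow, Polynomial.aeval_X, Polynomial.aeval_C] at hz
  refine ⟨(z : ℚ_[2]), ?_⟩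
  have h4 : (a : ℤ_[2]) = z * z := by
    have : z ^ 2 - (a : ℤ_[2]) = 0 := hz
    linear_combination -this
  have h5 := congrArg (fun w : ℤ_[2] => (w : ℚ_[2])) h4
  push_cast at h5
  exact h5

theorem of_two {d : ℤ} (hd : Squarefree d) (h : ∀ l : ℕ, l.Prime → (l : ℤ) ∣ d → l = 2) :
    d = 1 ∨ d = -1 ∨ d = 2 ∨ d = -2 := by
  have h1 : Squarefree d.natAbs := Int.squarefree_natAbs.mpr hd
  have h2 := Nat.prod_primeFactors_of_squarefree h1
  have h3 : d.natAbs.primeFactors ⊆ {2} := by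
    intro l hl
    rw [Nat.mem_primeFactors] at hl
    rw [Finset.mem_singleton]
    exact h l hl.1 (Int.natCast_dvd.mpr hl.2.1)
  rcases Finset.subset_singleton_iff.mp h3 with h4 | h4
  · rw [h4, Finset.prod_empty] at h2
    omega
  · rw [h4, Finset.prod_singleton] at h2
    omega

theorem no_neg_one [Fact (Nat.Prime 2)] (h : LSol 8 8 (-1) 2) : False := by
  obtain ⟨w, e, N, h1, h2⟩ := h.mod16
  revert w e N
  push_cast
  decide +revert

theorem unit_of {x : ℤ_[2]} (hx : ¬ ((2 : ℕ) : ℤ_[2]) ∣ x) : IsUnit x := by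
  by_contra hu
  apply hx
  rw [← toZMod_eq_zero, ← RingHom.mem_ker, PadicInt.ker_toZMod]
  exact (IsLocalRing.mem_maximalIdeal x).2 hu

theorem no_neg_two [Fact (Nat.Prime 2)] (h : LSol 8 8 (-2) 2) : False := by
  obtain ⟨w, e, N, hwe, h⟩ := h
  have hP := PadicInt.prime_p (p := 2)
  push_cast at h hP hwe
  have h2 : (2 : ℤ_[2]) ≠ 0 := two_ne_zero
  have a1 : N ^ 2 = 2 * (-(w ^ 4) + 4 * w ^ 2 * e ^ 2 - 2 * e ^ 4) := by
    apply mul_left_cancel₀ h2
    linear_combination -h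
  obtain ⟨n, rfl⟩ := hP.dvd_of_dvd_pow ⟨_, a1⟩
  have a2 : w ^ 4 = 2 * (2 * w ^ 2 * e ^ 2 - e ^ 4 - n ^ 2) := by
    apply mul_left_cancel₀ h2
    linear_combination a1
  obtain ⟨u, rfl⟩ := hP.dvd_of_dvd_pow ⟨_, a2⟩
  have a3 : -n ^ 2 = 8 * u ^ 4 - 8 * u ^ 2 * e ^ 2 + e ^ 4 := by
    apply mul_left_cancel₀ h2
    linear_combination -a2
  have he : IsUnit e := by
    apply unit_of
    intro h
    exact hwe ⟨Dvd.intro _ rfl, by exact_mod_cast h⟩
  let φ : ℤ_[2] →+* ZMod 8 := (PadicInt.toZModPow 3 : ℤ_[2] →+* ZMod (2 ^ 3))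
  obtain ⟨v, hv⟩ := he.exists_right_inv
  have b1 : φ e * φ v = 1 := by rw [← map_mul, hv, map_one]
  have b2 := congrArg φ a3
  simp only [map_mul, map_add, map_sub, map_neg, map_pow, map_ofNat] at b2
  generalize φ e = E at b1 b2
  generalize φ v = V at b1
  generalize φ n = n' at b2
  generalize φ u = U at b2
  have key : ∀ E V n' U : ZMod 8, E * V = 1 →
      -n' ^ 2 = 8 * U ^ 4 - 8 * U ^ 2 * E ^ 2 + E ^ 4 → False := by
    intro E V n' U h1 h2
    rw [show (8 : ZMod 8) = 0 from rfl, zero_mul, zero_mul, zero_mul, sub_zero, zero_add] at h2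
    revert E V n'
    decide
  exact key E V n' U b1 b2

end Pool.Agent.U962.GZ
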