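import Pool.Agent.U79.GZ.Stm
import Pool.Agent.U115.GE.Loc
import Pool.Agent.U962.GZ.Core

/-!
# Project GZ, package EX1 (helper962): the curve `y² = x³ - 4 x² + 2 x`
-/

set_option autoImplicit false
set_option linter.style.haveILetI false

open scoped Classical

namespace Pool.Agent.U962.GZ

open Pool.Agent.U115.GE hiding cfg
open Pool.Agent.U79.GY (Sp cfg Hc)
open Pool.Agent.U79.GZ

theorem dvd_two {l : ℕ} (hl : l.Prime) {n : ℕ} (h : (l : ℤ) ∣ 2 ^ n) : l = 2 := by
  have h1 : l ∣ 2 ^ n := by exact_mod_cast h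
  exact (Nat.prime_dvd_prime_iff_eq hl Nat.prime_two).mp (hl.dvd_of_dvd_pow h1)

theorem sel_one : SelSet (-4) 2 = {1, 2} := by
  ext d
  constructor
  · rintro ⟨hd, hr, hp⟩
    have h1 := of_two hd (fun l hl hld => by
      haveI : Fact l.Prime := ⟨hl⟩
      exact dvd_two (n := 1) hl (by simpa using (lsol_of_qs hd (hp l)).dvdB hd hld))
    have hpos : 0 < d := by
      obtain ⟨N, M, e, hne, h⟩ := hr
      by_contra hneg
      have hd0 : (d : ℝ) < 0 := by
        have h1 : d < 0 := lt_of_le_of_ne (not_lt.1 hneg) hd.ne_zero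
        exact_mod_cast h1
      push_cast at h
      have h2 : (2 : ℝ) / d < 0 := div_neg_of_pos_of_neg two_pos hd0
      have hM : M = 0 := by
        by_contra hM
        have : 0 < M ^ 4 := by positivity
        nlinarith [sq_nonneg N, sq_nonneg (M * e), sq_nonneg (e ^ 2), mul_pos_of_neg_of_neg hd0 (neg_neg_of_pos this)]
      have he : e = 0 := by
        by_contra he
        have : 0 < e ^ 4 := by positivity
        rw [hM] at h
        nlinarith [sq_nonneg N, mul_pos_of_neg_of_neg h2 (neg_neg_of_pos this)]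
      exact hne.elim (fun h => h hM) (fun h => h he)
    rcases h1 with h1 | h1 | h1 | h1
    · left; exact h1
    · omega
    · right; exact h1
    · omega
  · rintro (rfl | rfl)
    · exact ⟨squarefree_one, qs_sq ⟨1, by norm_num⟩, fun p _ => qs_sq ⟨1, by norm_num⟩⟩
    · exact ⟨Int.prime_two.squarefree, qs_sqb (by norm_num) ⟨2, by norm_num⟩, fun p _ =>
        qs_sqb (by norm_num) ⟨2, by norm_num⟩⟩

theorem sel_two : SelSet 8 8 = {1, 2} := by
  ext d
  constructor
  · rintro ⟨hd, hr, hp⟩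
    have h1 := of_two hd (fun l hl hld => by
      haveI : Fact l.Prime := ⟨hl⟩
      exact dvd_two (n := 3) hl (by
        have := (lsol_of_qs hd (hp l)).dvdB hd hld
        norm_num
        exact this))
    have h2 := lsol_of_qs hd (hp 2)
    rcases h1 with h1 | h1 | h1 | h1
    · left; exact h1
    · rw [h1] at h2
      exact (no_neg_one h2).elim
    · right; exact h1
    · rw [h1] at h2
      exact (no_neg_two h2).elim
  · rintro (rfl | rfl)
    · exact ⟨squarefree_one, qs_sq ⟨1, by norm_num⟩, fun p _ => qs_sq ⟨1, by norm_num⟩⟩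
    · exact ⟨Int.prime_two.squarefree, qs_sqb (by norm_num) ⟨4, by norm_num⟩, fun p _ =>
        qs_sqb (by norm_num) ⟨4, by norm_num⟩⟩

theorem qs_seven {q : ℤ} (hq : q % 8 = 7) [Fact (Nat.Prime 2)] : Qs ℚ_[2] (-4) 2 q := by
  have hq0 : (q : ℚ_[2]) ≠ 0 := by
    have : q ≠ 0 := by rintro rfl; norm_num at hq
    exact_mod_cast this
  obtain ⟨s, hs⟩ := sq_two (a := -q) (by omega)
  obtain ⟨t, ht⟩ := sq_two (a := -7) (by norm_num)
  push_cast at hs ht
  refine ⟨t * (s / q), s / q, 1, Or.inr one_ne_zero, ?_⟩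
  have e1 : (s / q) ^ 2 = -1 / (q : ℚ_[2]) := by
    rw [div_pow, sq s, ← hs]
    field_simp
  have e2 : (s / q) ^ 4 = 1 / (q : ℚ_[2]) ^ 2 := by
    rw [show (s / q) ^ 4 = ((s / q) ^ 2) ^ 2 by ring, e1]
    field_simp
  rw [mul_pow, e1, e2, sq t, ← ht]
  push_cast
  field_simp
  ring

theorem not_sq {n : ℤ} (k : ℤ) (h0 : 0 ≤ k) (h1 : k ^ 2 < n) (h2 : n < (k + 1) ^ 2) :
    ¬ IsSquare n := by
  rintro ⟨x, hx⟩
  have h3 : k < |x| := by
    by_contra h
    have : |x| * |x| ≤ k * k := mul_self_le_mul_self (abs_nonneg x) (not_lt.mp h)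
    rw [abs_mul_abs_self] at this
    nlinarith
  have h4 : |x| < k + 1 := by
    by_contra h
    have : (k + 1) * (k + 1) ≤ |x| * |x| := mul_self_le_mul_self (by linarith) (not_lt.mp h)
    rw [abs_mul_abs_self] at this
    nlinarith
  omega

theorem t_EX1 : S_EX1 where
  hM := ⟨by norm_num, by norm_num, by norm_num, by norm_num⟩
  nb := not_sq 1 (by norm_num) (by norm_num) (by norm_num)
  nc := not_sq 2 (by norm_num) (by norm_num) (by norm_num)
  s1 := by
    unfold sel
    rw [sel_one, Set.ncard_pair (by norm_num)]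
  s2 := by
    norm_num
    unfold sel
    rw [sel_two, Set.ncard_pair (by norm_num)]
  hw := by
    intro g _
    unfold ZZ
    rw [Finset.mem_image]
    refine ⟨(1, ∅), ?_, by simp⟩
    rw [Finset.mem_product]
    exact ⟨by simp, by simp⟩
  hL := by
    intro q hq
    obtain ⟨hqp, hq⟩ := hq
    unfold Hc cfg at hq
    rw [Finset.mem_filter] at hq
    obtain ⟨-, hc, hj, -⟩ := hq
    have hv : vv 8 (fun _ => 1) q = 1 := by
      unfold vv
      apply Finset.prod_eq_one
      intro g _
      rw [if_pos]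
      exact ⟨1, by norm_num⟩
    rw [hv, mul_one]
    have hodd : (q % (4 * 8)) % 2 = 1 := by
      by_contra h
      have h2 : 2 ∣ q % (4 * 8) := Nat.dvd_of_mod_eq_zero (by omega)
      have h3 : 2 ∣ Nat.gcd (q % (4 * 8)) (4 * 8) := Nat.dvd_gcd h2 (by norm_num)
      rw [hc] at h3
      omega
    rw [jacobiSym.at_two (Nat.odd_iff.mpr hodd), ZMod.χ₈_nat_eq_if_mod_eight,
      if_neg (by omega)] at hj
    have h8 : (q % (4 * 8)) % 8 = 1 ∨ (q % (4 * 8)) % 8 = 7 := by
      by_contra h
      rw [if_neg h] at hj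
      norm_num at hj
    refine ⟨qs_sq ⟨Real.sqrt q, ?_⟩, ?_⟩
    · rw [Real.mul_self_sqrt (Nat.cast_nonneg q)]
      push_cast
      rfl
    · intro l hl hl8
      have hl2 : l = 2 := dvd_two (n := 3) hl.out (by exact_mod_cast hl8)
      subst hl2
      rcases h8 with h8 | h8
      · exact qs_sq (sq_two (by omega))
      · exact qs_seven (by omega)

end Pool.Agent.U962.GZ
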