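import Pool.Agent.U79.GZ.Stm3

/-!
# Project GZ, package LAWK: the number of solutions is `2 ^ t`; Bonferroni

Co-authors: helper79 (project, statement), helper643 (the case `t = 0`, package LAW, from which this
file is adapted), helper962 (this package).
-/

set_option autoImplicit false

open scoped Classical

namespace Pool.Agent.U962.GZ.LK

open Finset hiding ext
open Pool.Agent.Y703.CQ (prs ext)
open Pool.Agent.U79.MO (SolA)
open Pool.Agent.U79.GZ

/-- the solutions form a subspace -/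
noncomputable def sub {U J : Type} [Fintype U] [Fintype J] (U1 : Finset U) (J1 : Finset J)
    (A : U → U → ZMod 2) (B : U → J → ZMod 2) (C : J → U → ZMod 2) (R : J → J → ZMod 2)
    (f : U → ZMod 2) (g : J → ZMod 2) : Submodule (ZMod 2) ((U → ZMod 2) × (J → ZMod 2)) where
  carrier := {z | SolA U1 J1 A B C R f g z}
  zero_mem' := by
    refine ⟨fun _ _ => rfl, fun _ _ => rfl, fun u _ => ?_, fun j _ => ?_⟩ <;> simp
  add_mem' := by
    rintro z w ⟨a1, a2, a3, a4⟩ ⟨b1, b2, b3, b4⟩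
    refine ⟨fun u hu => ?_, fun l hl => ?_, fun u hu => ?_, fun j hj => ?_⟩
    · rw [Prod.fst_add, Pi.add_apply, a1 u hu, b1 u hu, add_zero]
    · rw [Prod.snd_add, Pi.add_apply, a2 l hl, b2 l hl, add_zero]
    · rw [← add_zero (0 : ZMod 2)]
      nth_rewrite 1 [← a3 u hu]
      rw [← b3 u hu]
      simp only [Prod.fst_add, Prod.snd_add, Pi.add_apply, mul_add, sum_add_distrib]
      ring
    · rw [← add_zero (0 : ZMod 2)]
      nth_rewrite 1 [← a4 j hj]
      rw [← b4 j hj]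
      simp only [Prod.fst_add, Prod.snd_add, Pi.add_apply, mul_add, sum_add_distrib]
      ring
  smul_mem' := by
    rintro c z ⟨a1, a2, a3, a4⟩
    refine ⟨fun u hu => ?_, fun l hl => ?_, fun u hu => ?_, fun j hj => ?_⟩
    · rw [Prod.smul_fst, Pi.smul_apply, a1 u hu, smul_zero]
    · rw [Prod.smul_snd, Pi.smul_apply, a2 l hl, smul_zero]
    · have h := congrArg (fun t => c * t) (a3 u hu)
      simp only [mul_add, mul_zero, mul_sum] at h
      rw [← h]
      simp only [Prod.smul_fst, Prod.smul_snd, Pi.smul_apply, smul_eq_mul, mul_add]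
      congr 1
      · congr 1
        · exact sum_congr rfl fun v _ => by ring
        · exact sum_congr rfl fun v _ => by ring
      · ring
    · have h := congrArg (fun t => c * t) (a4 j hj)
      simp only [mul_add, mul_zero, mul_sum] at h
      rw [← h]
      simp only [Prod.smul_fst, Prod.smul_snd, Pi.smul_apply, smul_eq_mul, mul_add]
      congr 1
      · congr 1
        · exact sum_congr rfl fun v _ => by ring
        · exact sum_congr rfl fun v _ => by ring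
      · ring

lemma ns_pow {U J : Type} [Fintype U] [Fintype J] (U1 : Finset U) (J1 : Finset J)
    (A : U → U → ZMod 2) (B : U → J → ZMod 2) (C : J → U → ZMod 2) (R : J → J → ZMod 2)
    (f : U → ZMod 2) (g : J → ZMod 2) : ∃ n : ℕ, ns U1 J1 A B C R f g = 2 ^ n := by
  refine ⟨Module.finrank (ZMod 2) (sub U1 J1 A B C R f g), ?_⟩
  have h1 := Module.natCard_eq_pow_finrank (K := ZMod 2) (V := sub U1 J1 A B C R f g)
  rw [Nat.card_zmod] at h1
  rw [← h1]
  unfold ns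
  rw [Nat.card_eq_fintype_card, ← Fintype.card_subtype]
  exact Fintype.card_congr (Equiv.refl _)

lemma ak_pos (k : ℕ) : 0 < ak k := by
  unfold ak
  refine prod_pos fun i _ => ?_
  have : (2 : ℝ) ≤ 2 ^ (i + 1) := by
    calc (2 : ℝ) = 2 ^ 1 := by norm_num
      _ ≤ 2 ^ (i + 1) := pow_le_pow_right₀ (by norm_num) (by omega)
  exact div_pos one_pos (by linarith)

lemma ak_le_one (k : ℕ) : ak k ≤ 1 := by
  unfold ak
  refine prod_le_one (fun i _ => ?_) fun i _ => ?_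
  all_goals
    have : (2 : ℝ) ≤ 2 ^ (i + 1) := by
      calc (2 : ℝ) = 2 ^ 1 := by norm_num
        _ ≤ 2 ^ (i + 1) := pow_le_pow_right₀ (by norm_num) (by omega)
  · exact div_nonneg zero_le_one (by linarith)
  · rw [div_le_one (by linarith)]
    linarith

lemma ak_succ_le (K : ℕ) : ak (K + 1) ≤ (1 / 2 : ℝ) ^ K := by
  induction K with
  | zero =>
    rw [pow_zero]
    exact ak_le_one 1
  | succ K ih =>
    have h1 : ak (K + 1 + 1) = ak (K + 1) * (1 / ((2 : ℝ) ^ (K + 1 + 1) - 1)) := by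
      unfold ak
      rw [prod_range_succ]
    have h2 : (4 : ℝ) ≤ 2 ^ (K + 1 + 1) := by
      calc (4 : ℝ) = 2 ^ 2 := by norm_num
        _ ≤ 2 ^ (K + 1 + 1) := pow_le_pow_right₀ (by norm_num) (by omega)
    have h3 : 1 / ((2 : ℝ) ^ (K + 1 + 1) - 1) ≤ 1 / 2 :=
      one_div_le_one_div_of_le (by norm_num) (by linarith)
    have h4 : 0 ≤ 1 / ((2 : ℝ) ^ (K + 1 + 1) - 1) := div_nonneg zero_le_one (by linarith)
    rw [h1, pow_succ]
    exact mul_le_mul ih h3 h4 (pow_nonneg (by norm_num) K)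

lemma bk_nonneg (t j : ℕ) : 0 ≤ bk t j := by
  unfold bk
  have h1 := (ak_pos j).le
  have h2 := (ak_pos t).le
  positivity

lemma bk_le_ak (t j : ℕ) : bk t j ≤ ak j := by
  unfold bk
  have h1 := (ak_pos j).le
  have h2 := (ak_pos t).le
  have h3 : (1 / 2 : ℝ) ^ (t * j) ≤ 1 := pow_le_one₀ (by norm_num) (by norm_num)
  have h4 : (1 / 2 : ℝ) ^ (t * (t - 1) / 2) ≤ 1 := pow_le_one₀ (by norm_num) (by norm_num)
  have h5 : (1 / 2 : ℝ) ^ (t * (t - 1) / 2) * ak t ≤ 1 :=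
    mul_le_one₀ h4 h2 (ak_le_one t)
  calc (1 / 2 : ℝ) ^ (t * j) * ak j * ((1 / 2 : ℝ) ^ (t * (t - 1) / 2) * ak t)
      ≤ (1 / 2 : ℝ) ^ (t * j) * ak j * 1 := by
        apply mul_le_mul_of_nonneg_left h5
        positivity
    _ = (1 / 2 : ℝ) ^ (t * j) * ak j := mul_one _
    _ ≤ 1 * ak j := mul_le_mul_of_nonneg_right h3 h1
    _ = ak j := one_mul _

lemma bk_le_one (t j : ℕ) : bk t j ≤ 1 := (bk_le_ak t j).trans (ak_le_one j)

lemma bk_succ_le (t K : ℕ) : bk t (K + 1) ≤ (1 / 2 : ℝ) ^ K :=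
  (bk_le_ak t (K + 1)).trans (ak_succ_le K)

lemma sum_pow_le (t n : ℕ) :
    ∑ k ∈ range (n + 1), (2 : ℝ) ^ ((t + k) ^ 2 + 1) ≤ 2 ^ ((t + n) ^ 2 + 2) := by
  induction n with
  | zero =>
    rw [zero_add, sum_range_one, add_zero]
    exact pow_le_pow_right₀ (by norm_num) (by omega)
  | succ n ih =>
    rw [sum_range_succ]
    have h1 : (2 : ℝ) ^ ((t + n) ^ 2 + 2) ≤ 2 ^ ((t + (n + 1)) ^ 2 + 1) :=
      pow_le_pow_right₀ (by norm_num) (by nlinarith [Nat.zero_le (t + n)])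
    have h2 : (2 : ℝ) ^ ((t + (n + 1)) ^ 2 + 2) =
        2 ^ ((t + (n + 1)) ^ 2 + 1) + 2 ^ ((t + (n + 1)) ^ 2 + 1) := by
      rw [pow_succ (2 : ℝ) ((t + (n + 1)) ^ 2 + 1)]
      ring
    linarith

lemma dd_nonneg (u j m n : ℕ) : 0 ≤ dd u j m n := by
  unfold dd
  positivity

/-- Package LAWK of project GZ. -/
theorem t_LAWK : S_LAWK := by
  intro hLIM hBONK hBON hIK t K m n U J _ _ _ U1 J1 A B C e f g hHy
  have hBON' := hBONK hBON t
  set W : ℝ := 2 ^ (prs J1).card with hW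
  have hW0 : 0 < W := by positivity
  set d : ℝ := dd (Fintype.card U) J1.card m n with hd
  have hd0 : 0 ≤ d := dd_nonneg _ _ _ _
  set N : (prs J1 → ZMod 2) → ℕ := fun α => ns U1 J1 A B C (fun j l => ext α j l + e j l) f g with hN
  choose ν hν using fun α : prs J1 → ZMod 2 =>
    ns_pow U1 J1 A B C (fun j l => ext α j l + e j l) f g
  have hNν : ∀ α, (N α : ℝ) = 2 ^ ν α := fun α => by
    rw [hN]
    simp only
    rw [hν α]
    push_cast
    rfl
  have hIK' : ∀ k, |(∑ α, Ik (t + k) (N α : ℝ)) / W - 1| ≤ 2 ^ ((t + k) ^ 2 + 1) * d := fun k =>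
    hIK (t + k) m n U J U1 J1 A B C e f g hHy
  -- the count
  have hcount : ((univ.filter fun α : prs J1 → ZMod 2 => N α = 2 ^ t).card : ℝ) =
      ∑ α, (if ν α = t then (1 : ℝ) else 0) := by
    rw [← sum_boole]
    refine sum_congr rfl fun α _ => ?_
    have h1 : N α = 2 ^ t ↔ ν α = t := by
      rw [hN]
      simp only
      rw [hν α]
      constructor
      · intro h
        exact Nat.pow_right_injective (le_refl 2) h
      · intro h
        rw [h]
    by_cases h2 : ν α = t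
    · rw [if_pos h2, if_pos (h1.2 h2)]
    · rw [if_neg h2, if_neg fun h => h2 (h1.1 h)]
  have h1 : |(∑ α, (if ν α = t then (1 : ℝ) else 0)) -
      ∑ k ∈ range (K + 1), (-1 : ℝ) ^ k * (bk t k * ∑ α, Ik (t + k) (N α : ℝ))| ≤
      bk t (K + 1) * ∑ α, Ik (t + (K + 1)) (N α : ℝ) := by
    have e1 : ∑ k ∈ range (K + 1), (-1 : ℝ) ^ k * (bk t k * ∑ α, Ik (t + k) (N α : ℝ)) =
        ∑ α, ∑ k ∈ range (K + 1), (-1 : ℝ) ^ k * (bk t k * Ik (t + k) (N α : ℝ)) := by
      rw [sum_comm]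
      refine sum_congr rfl fun k _ => ?_
      rw [mul_sum, mul_sum]
    rw [e1, ← sum_sub_distrib, mul_sum]
    refine (abs_sum_le_sum_abs _ _).trans (sum_le_sum fun α _ => ?_)
    rw [hNν]
    exact hBON' (ν α) K
  -- divide by W
  set P : ℝ := (∑ α, (if ν α = t then (1 : ℝ) else 0)) / W with hP
  have h2 : |P - ∑ k ∈ range (K + 1),
      (-1 : ℝ) ^ k * (bk t k * ((∑ α, Ik (t + k) (N α : ℝ)) / W))| ≤
      bk t (K + 1) * ((∑ α, Ik (t + (K + 1)) (N α : ℝ)) / W) := by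
    have e1 : P - ∑ k ∈ range (K + 1),
        (-1 : ℝ) ^ k * (bk t k * ((∑ α, Ik (t + k) (N α : ℝ)) / W)) =
        ((∑ α, (if ν α = t then (1 : ℝ) else 0)) -
          ∑ k ∈ range (K + 1), (-1 : ℝ) ^ k * (bk t k * ∑ α, Ik (t + k) (N α : ℝ))) / W := by
      have e2 : (∑ k ∈ range (K + 1),
          (-1 : ℝ) ^ k * (bk t k * ∑ α, Ik (t + k) (N α : ℝ))) / W =
          ∑ k ∈ range (K + 1), (-1 : ℝ) ^ k * (bk t k * ((∑ α, Ik (t + k) (N α : ℝ)) / W)) := by
        rw [Finset.sum_div]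
        exact sum_congr rfl fun k _ => by ring
      rw [hP, sub_div, e2]
    rw [e1, abs_div, abs_of_pos hW0, ← mul_div_assoc]
    exact div_le_div_of_nonneg_right h1 hW0.le
  have h3 : |∑ k ∈ range (K + 1),
      (-1 : ℝ) ^ k * (bk t k * ((∑ α, Ik (t + k) (N α : ℝ)) / W)) -
      ∑ k ∈ range (K + 1), (-1 : ℝ) ^ k * bk t k| ≤
      ∑ k ∈ range (K + 1), 2 ^ ((t + k) ^ 2 + 1) * d := by
    rw [← sum_sub_distrib]
    refine (abs_sum_le_sum_abs _ _).trans (sum_le_sum fun k _ => ?_)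
    have e1 : (-1 : ℝ) ^ k * (bk t k * ((∑ α, Ik (t + k) (N α : ℝ)) / W)) -
        (-1 : ℝ) ^ k * bk t k =
        (-1 : ℝ) ^ k * (bk t k * ((∑ α, Ik (t + k) (N α : ℝ)) / W - 1)) := by ring
    rw [e1, abs_mul, abs_mul, abs_pow, abs_neg, abs_one, one_pow, one_mul,
      abs_of_nonneg (bk_nonneg t k)]
    calc bk t k * |(∑ α, Ik (t + k) (N α : ℝ)) / W - 1| ≤ 1 * (2 ^ ((t + k) ^ 2 + 1) * d) :=
          mul_le_mul (bk_le_one t k) (hIK' k) (abs_nonneg _) zero_le_one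
      _ = _ := one_mul _
  have h4 : bk t (K + 1) * ((∑ α, Ik (t + (K + 1)) (N α : ℝ)) / W) ≤
      (1 / 2 : ℝ) ^ K + 2 ^ ((t + (K + 1)) ^ 2 + 1) * d := by
    have a1 := (abs_le.1 (hIK' (K + 1))).2
    have a2 := bk_succ_le t K
    have a3 := bk_le_one t (K + 1)
    have a4 := bk_nonneg t (K + 1)
    have a5 : 0 ≤ 2 ^ ((t + (K + 1)) ^ 2 + 1) * d := by positivity
    calc bk t (K + 1) * ((∑ α, Ik (t + (K + 1)) (N α : ℝ)) / W)
        ≤ bk t (K + 1) * (1 + 2 ^ ((t + (K + 1)) ^ 2 + 1) * d) :=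
          mul_le_mul_of_nonneg_left (by linarith) a4
      _ = bk t (K + 1) + bk t (K + 1) * (2 ^ ((t + (K + 1)) ^ 2 + 1) * d) := by ring
      _ ≤ (1 / 2 : ℝ) ^ K + 1 * (2 ^ ((t + (K + 1)) ^ 2 + 1) * d) :=
          add_le_add a2 (mul_le_mul_of_nonneg_right a3 a5)
      _ = _ := by rw [one_mul]
  have h5 := hLIM t K
  have h6 : ∑ k ∈ range (K + 1), 2 ^ ((t + k) ^ 2 + 1) * d +
      2 ^ ((t + (K + 1)) ^ 2 + 1) * d ≤ 2 ^ ((t + K + 2) ^ 2 + 2) * d := by
    rw [← sum_mul, ← add_mul]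
    refine mul_le_mul_of_nonneg_right ?_ hd0
    have b1 := sum_pow_le t (K + 1)
    rw [sum_range_succ] at b1
    refine b1.trans (pow_le_pow_right₀ (by norm_num) ?_)
    nlinarith [Nat.zero_le (t + K)]
  have h7 : (0 : ℝ) ≤ (1 / 2 : ℝ) ^ K := by positivity
  show |((univ.filter fun α : prs J1 → ZMod 2 => N α = 2 ^ t).card : ℝ) / W - et t| ≤ _
  rw [hcount]
  unfold ek
  rw [← hd]
  rw [abs_le] at h2 h3 h5 ⊢
  constructor <;> linarith [h2.1, h2.2, h3.1, h3.2, h5.1, h5.2]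

end Pool.Agent.U962.GZ.LK
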